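import Pool.Agent.T9h8.NF.SlotSum

/-!
# Divisibility in one slot (helper8)
-/

set_option autoImplicit false

namespace Pool.Agent.T9h8.NF

open Finset NumberField Pool.Agent.T9h42.GF Pool.Agent.T9h57.QD Pool.Agent.T9h11.NF

variable {K : Type} [Field K] [NumberField K]

lemma adm_nrm {ρ : Sp K → ℝ} (hρ : Adm ρ) {z : Sp K} (hz : ρ z ≠ 0) : 0 < nrm z := by
  obtain ⟨-, -, ⟨c₁, c₂, hc₁, hc⟩, -⟩ := hρ
  exact nrm_pos fun v => norm_pos_iff.1 (lt_of_lt_of_le hc₁ (hc z hz v).1)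

lemma adm_zero {ρ : Sp K → ℝ} (hρ : Adm ρ) : ρ 0 = 0 := by
  by_contra h
  obtain ⟨-, -, ⟨c₁, c₂, hc₁, hc⟩, -⟩ := hρ
  have := (hc 0 h (Classical.arbitrary _)).1
  simp only [Pi.zero_apply, norm_zero] at this
  linarith

lemma adm_G {ρ : Sp K → ℝ} (hρ : Adm ρ) (z : Sp K) : ρ z / nrm z ≠ 0 ↔ ρ z ≠ 0 := by
  constructor
  · intro h h0
    exact h (by rw [h0, zero_div])
  · intro h
    exact div_ne_zero h (adm_nrm hρ h).ne'

lemma wl_eq (ρ : Sp K → ℝ) {D : ℝ} (hD : 0 < D) (x : 𝓞 K) :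
    wl ρ D x = ρ (D⁻¹ • E (x : K)) / nrm (D⁻¹ • E (x : K)) / D ^ Module.finrank ℚ K := by
  unfold wl
  rw [nrm_smul, abs_of_pos (inv_pos.2 hD), inv_pow]
  have : D ^ Module.finrank ℚ K ≠ 0 := by positivity
  rw [div_div]
  congr 1
  field_simp

lemma slot_ne_zero {ρ : Sp K → ℝ} (hρ : Adm ρ) {M : Ideal (𝓞 K)} {D : ℝ} {S : Finset (𝓞 K)}
    (hS : IsSlot ρ M D S) {x : 𝓞 K} (hx : x ∈ S) : x ≠ 0 := by
  rintro rfl
  have h := ((hS 0).1 hx).2
  apply h
  have : E ((0 : 𝓞 K) : K) = 0 := by simp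
  rw [this, smul_zero]
  exact adm_zero hρ

/-- the mean of `pr` -/
lemma sum_pr (f : 𝓞 K → ℝ) (S : Finset (𝓞 K)) (p : 𝓞 K → Prop) :
    ∑ x ∈ S, pr f S x * ind (p x) = (∑ x ∈ S, f x * ind (p x)) / ∑ x ∈ S, f x := by
  unfold pr
  rw [Finset.sum_div]
  refine Finset.sum_congr rfl fun x _ => ?_
  ring

/-- points of `h` in a ball -/
lemma card_h (hLat : LatK K) : ∃ C : ℝ, 1 ≤ C ∧ ∀ (h : Ideal (𝓞 K)) (R : ℝ) (S : Finset (𝓞 K)),
    h ≠ ⊥ → 0 ≤ R → (∀ x ∈ S, x ∈ h ∧ x ≠ 0 ∧ ‖E (x : K)‖ ≤ R) →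
    (S.card : ℝ) ≤ C * R ^ Module.finrank ℚ K / nm h := by
  obtain ⟨C, hC1, -, -, hc, hd⟩ := hLat
  refine ⟨C * 2 ^ Module.finrank ℚ K, ?_, ?_⟩
  · have : (1 : ℝ) ≤ 2 ^ Module.finrank ℚ K := one_le_pow₀ (by norm_num)
    nlinarith
  intro h R S hh hR hS
  have hn1 : 1 ≤ nm h := one_le_nm hh
  have hn0 : 0 < nm h := by linarith
  rcases S.eq_empty_or_nonempty with rfl | ⟨x₀, hx₀⟩
  · rw [Finset.card_empty, Nat.cast_zero]
    positivity
  set s : ℝ := nm h ^ ((Module.finrank ℚ K : ℝ)⁻¹) with hs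
  have hs0 : 0 < s := Real.rpow_pos_of_pos hn0 _
  have hsd : s ^ Module.finrank ℚ K = nm h := by
    rw [hs]
    exact Real.rpow_inv_natCast_pow hn0.le finrank_ne
  have h1 : nm h ≤ R ^ Module.finrank ℚ K := by
    have h2 := hc h x₀ (hS x₀ hx₀).1 (hS x₀ hx₀).2.1
    exact h2.1.trans (h2.2.trans (pow_le_pow_left₀ (norm_nonneg _) (hS x₀ hx₀).2.2 _))
  have h3 : s ≤ R := by
    rw [← hsd] at h1
    exact (pow_le_pow_iff_left₀ hs0.le hR finrank_ne).1 h1
  have h4 := hd h s R 0 S hh hs0 hsd hR fun x hx => ⟨by simpa using (hS x hx).1, (hS x hx).2.2⟩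
  refine h4.trans ?_
  have h5 : 1 + R / s ≤ 2 * R / s := by
    have : 1 ≤ R / s := (one_le_div hs0).2 h3
    rw [mul_div_assoc]
    linarith
  calc C * (1 + R / s) ^ Module.finrank ℚ K ≤ C * (2 * R / s) ^ Module.finrank ℚ K :=
        mul_le_mul_of_nonneg_left (pow_le_pow_left₀ (by positivity) h5 _) (by linarith)
    _ = _ := by
        rw [div_pow, mul_pow, hsd]
        ring

/-- `h ∣ x` in one slot, `h` prime to `M` -/
lemma mean_h (hLat : LatK K) (hA : AbelK K) (hMn : MeanK K) : ∃ C : ℝ, 1 ≤ C ∧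
    ∀ (M h : Ideal (𝓞 K)), M ≠ ⊥ → h ≠ ⊥ → IsCoprime h M →
    ∀ (F : Sp K → ℝ) (L B : ℝ), 0 ≤ L → 0 ≤ B → LipF L B F → ∀ S : Finset (𝓞 K),
      (∀ x : 𝓞 K, F (E (x : K)) ≠ 0 → x ∈ S) →
      |∑ x ∈ S, F (E (x : K)) * ind (cop x M ∧ x ∈ h) -
        (∑ x ∈ S, F (E (x : K)) * ind (cop x M)) / nm h| ≤
        C * L * (nm M * nm h) * (B + nm M * nm h + 1) ^ Module.finrank ℚ K := by
  classical
  obtain ⟨C, hC1, hC⟩ := abel_real hLat hA
  refine ⟨C, hC1, ?_⟩
  intro M h hM hh hcop F L B hL hB hF S hS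
  set T : Ideal (𝓞 K) := M * 1 * h with hT
  have hT0 : T ≠ ⊥ := by
    rw [hT, mul_one]
    exact mul_ne_zero hM hh
  have : Finite (𝓞 K ⧸ T) := Ideal.finiteQuotientOfFreeOfNeBot T hT0
  let _ : Fintype (𝓞 K ⧸ T) := Fintype.ofFinite _
  set out : 𝓞 K ⧸ T → 𝓞 K := fun q => (Ideal.Quotient.mk_surjective q).choose with hout
  have hmk : ∀ q, Ideal.Quotient.mk T (out q) = q := fun q =>
    (Ideal.Quotient.mk_surjective q).choose_spec
  have h1bot : (1 : Ideal (𝓞 K)) ≠ ⊥ := by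
    rw [Ideal.one_eq_top]
    exact top_ne_bot
  obtain ⟨-, hmean, -, -, hper⟩ := hMn M 1 h hM h1bot hh (pd_one M) hcop out hmk
  have hn1 : 1 ≤ nm h := one_le_nm hh
  have hn0 : 0 < nm h := by linarith
  have hTn : nm T = nm M * nm h := by
    unfold nm
    rw [hT, mul_one, map_mul]
    push_cast
    rfl
  have h1 := hC T (nm T) hT0 (by linarith [one_le_nm hT0]) (le_pow_nm hT0)
    (fun q => ind (cop (out q) M ∧ out q ∈ h) - ind (cop (out q) M) / nm h)
    (fun q => by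
      have a1 := ind_nonneg (cop (out q) M ∧ out q ∈ h)
      have a2 := ind_le_one (cop (out q) M ∧ out q ∈ h)
      have a3 : 0 ≤ ind (cop (out q) M) / nm h := div_nonneg (ind_nonneg _) hn0.le
      have a4 : ind (cop (out q) M) / nm h ≤ 1 := by
        rw [div_le_one hn0]
        exact (ind_le_one _).trans hn1
      rw [abs_le]
      constructor <;> linarith) hmean F L B hL hB hF S hS
  have h2 : ∀ x : 𝓞 K, ind (cop (out (Ideal.Quotient.mk T x)) M) = ind (cop x M) := by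
    intro x
    refine ind_congr (hper _ _ ?_)
    rw [← Ideal.Quotient.eq, hmk]
  have h3 : ∀ x : 𝓞 K, ind (cop (out (Ideal.Quotient.mk T x)) M ∧
      out (Ideal.Quotient.mk T x) ∈ h) = ind (cop x M ∧ x ∈ h) := by
    intro x
    have h4 : out (Ideal.Quotient.mk T x) - x ∈ T := by
      rw [← Ideal.Quotient.eq, hmk]
    have h5 : out (Ideal.Quotient.mk T x) - x ∈ h := Ideal.mul_le_right h4
    refine ind_congr (and_congr (hper _ _ h4) ?_)
    constructor
    · intro h6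
      have := h.sub_mem h6 h5
      simpa using this
    · intro h6
      have := h.add_mem h5 h6
      simpa using this
  simp only [h2, h3] at h1
  rw [hTn] at h1
  refine le_of_eq_of_le ?_ h1
  congr 1
  rw [Finset.sum_div, ← Finset.sum_sub_distrib]
  refine Finset.sum_congr rfl fun x _ => ?_
  ring

/-- **`DivXK`** -/
theorem divXK (K : Type) [Field K] [NumberField K] (hLat : LatK K) (hA : AbelK K)
    (hMn : MeanK K) (hR : RiemK K) (hL : LipX K) : DivXK K := by
  classical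
  intro ρ M hρ hM
  obtain ⟨I, CR, hCR, hR1, hR2, hR3, hR4, hR5⟩ := hR
  obtain ⟨L, B, hL0, hB0, -, -, hLG, -, -⟩ := hL ρ ρ hρ hρ
  set d := Module.finrank ℚ K with hd
  set G : Sp K → ℝ := fun z => ρ z / nrm z with hG
  have hG0 : ∀ z, 0 ≤ G z := fun z => div_nonneg (hρ.1 z).1 (nrm_nonneg z)
  obtain ⟨γ, C₁, hγ0, hγ1, hC₁, hsum⟩ := slot_sum hLat hA hMn I CR hCR hR1 hR2 M hM ρ G
    (adm_G hρ) L B hL0 hB0 hLG
  obtain ⟨C₂, hC₂, hcard⟩ := card_h hLat
  obtain ⟨C₃, hC₃, hmean⟩ := mean_h hLat hA hMn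
  have hI : 0 < I G := by
    refine hR5 G L B hLG hG0 ?_
    obtain ⟨z, hz1, hz2⟩ := hρ.2.2.2
    exact ⟨z, hz1, (adm_G hρ z).2 hz2⟩
  set κ : ℝ := γ * I G with hκ
  have hκ0 : 0 < κ := mul_pos hγ0 hI
  have hM1 : 1 ≤ nm M := one_le_nm hM
  set C₄ : ℝ := 2 * (L * B) / κ with hC₄
  set C₅ : ℝ := C₄ * (C₂ * B ^ d) with hC₅
  set C₆ : ℝ := 2 / κ * (C₃ * L * nm M * (B + 2) ^ d) with hC₆
  have hC₄0 : 0 ≤ C₄ := by positivity
  have hC₅0 : 0 ≤ C₅ := by positivity
  have hC₆0 : 0 ≤ C₆ := by positivity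
  refine ⟨1 + 2 / κ + 2 * κ + C₄ + C₅ + C₆ + nm M, 1 + 2 * C₁ / κ, ?_, ?_, ?_⟩
  · have : 0 ≤ 2 / κ + 2 * κ := by positivity
    linarith
  · have : 0 ≤ 2 * C₁ / κ := by positivity
    linarith
  intro D hD S hS
  have h2C : 2 * C₁ / κ ≤ D := by linarith
  have hD1 : 1 ≤ D := by
    have : 0 ≤ 2 * C₁ / κ := by positivity
    linarith
  have hD0 : 0 < D := by linarith
  set P : ℝ := D ^ d with hP
  have hP0 : 0 < P := by positivity
  have hwl : ∀ x : 𝓞 K, wl ρ D x = G (D⁻¹ • E (x : K)) / P := fun x => wl_eq ρ hD0 x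
  set Z : ℝ := ∑ x ∈ S, wl ρ D x with hZ
  have hZeq : Z = (∑ x ∈ S, G (D⁻¹ • E (x : K))) / P := by
    rw [hZ, Finset.sum_div]
    exact Finset.sum_congr rfl fun x _ => hwl x
  have h1 := hsum D hD1 S hS
  have h2 : C₁ * (P / D) ≤ κ / 2 * P := by
    rw [div_le_iff₀ hκ0] at h2C
    rw [mul_div_assoc', div_le_iff₀ hD0]
    have e : κ / 2 * P * D = D * κ / 2 * P := by ring
    rw [e]
    exact mul_le_mul_of_nonneg_right (by linarith) hP0.le
  have h3 : γ * (P * I G) = κ * P := by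
    rw [hκ]
    ring
  rw [← hP, h3] at h1
  have h4 := abs_le.1 (h1.trans h2)
  have hZ1 : κ / 2 ≤ Z := by
    rw [hZeq, le_div_iff₀ hP0]
    linarith [h4.1]
  have hZ2 : Z ≤ 2 * κ := by
    rw [hZeq, div_le_iff₀ hP0]
    have e : 2 * κ * P = κ * P + κ * P := by ring
    have e2 : κ / 2 * P ≤ κ * P := mul_le_mul_of_nonneg_right (by linarith) hP0.le
    rw [e]
    linarith [h4.2]
  have hZ0 : 0 < Z := by linarith [half_pos hκ0]
  have hwl0 : ∀ x : 𝓞 K, 0 ≤ wl ρ D x := fun x => by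
    rw [hwl]
    exact div_nonneg (hG0 _) hP0.le
  have hGB : ∀ z, G z ≤ L * B := by
    intro z
    by_cases hz : G z = 0
    · rw [hz]
      positivity
    · have h5 := hLG.1 z 0
      have h6 : G 0 = 0 := by
        simp only [hG]
        rw [adm_zero hρ, zero_div]
      have h7 := hLG.2 z hz
      change |G z - G 0| ≤ L * ‖z - 0‖ at h5
      rw [h6, sub_zero, sub_zero, abs_of_nonneg (hG0 z)] at h5
      exact h5.trans (mul_le_mul_of_nonneg_left h7 hL0)
  have hpr : ∀ x : 𝓞 K, pr (wl ρ D) S x ≤ C₄ / P := by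
    intro x
    unfold pr
    rw [← hZ, hwl, hC₄]
    calc G (D⁻¹ • E (x : K)) / P / Z ≤ L * B / P / (κ / 2) := by
          refine div_le_div₀ (by positivity) ?_ (by positivity) hZ1
          exact div_le_div_of_nonneg_right (hGB _) hP0.le
      _ = _ := by field_simp
  refine ⟨?_, ?_, ?_, ?_, ?_⟩
  · by_contra h
    rw [Finset.not_nonempty_iff_eq_empty] at h
    rw [hZ, h, Finset.sum_empty] at hZ0
    exact lt_irrefl _ hZ0
  · refine le_trans ?_ hZ1
    have h6 : (0 : ℝ) < 1 + 2 / κ + 2 * κ + C₄ + C₅ + C₆ + nm M := by positivity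
    rw [div_le_iff₀ h6]
    have h7 : κ / 2 * (2 / κ) = 1 := by field_simp
    have h8 : 0 ≤ κ / 2 := by positivity
    have h9 : 2 / κ ≤ 1 + 2 / κ + 2 * κ + C₄ + C₅ + C₆ + nm M := by linarith
    calc (1 : ℝ) = κ / 2 * (2 / κ) := h7.symm
      _ ≤ _ := mul_le_mul_of_nonneg_left h9 h8
  · refine hZ2.trans ?_
    have : 0 ≤ 2 / κ := by positivity
    linarith
  · intro x _
    refine (hpr x).trans (div_le_div_of_nonneg_right ?_ hP0.le)
    have : 0 ≤ 2 / κ := by positivity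
    linarith
  intro h hh
  have hn1 : 1 ≤ nm h := one_le_nm hh
  have hn0 : 0 < nm h := by linarith
  constructor
  · -- trivial bound
    have h5 : ∑ x ∈ S, pr (wl ρ D) S x * ind (x ∈ h) ≤
        ((S.filter fun x => x ∈ h).card : ℝ) * (C₄ / P) := by
      rw [← nsmul_eq_mul, ← Finset.sum_const, Finset.sum_filter]
      refine Finset.sum_le_sum fun x _ => ?_
      split_ifs with hx
      · rw [ind_true hx, mul_one]
        exact hpr x
      · rw [ind_false hx, mul_zero]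
    have h6 := hcard h (B * D) (S.filter fun x => x ∈ h) hh (by positivity) (fun x hx => by
      rw [Finset.mem_filter] at hx
      refine ⟨hx.2, slot_ne_zero hρ hS hx.1, ?_⟩
      exact (lip_scale hD0 hLG).2 _ ((adm_G hρ _).2 ((hS x).1 hx.1).2))
    calc _ ≤ ((S.filter fun x => x ∈ h).card : ℝ) * (C₄ / P) := h5
      _ ≤ (C₂ * (B * D) ^ d / nm h) * (C₄ / P) := mul_le_mul_of_nonneg_right h6 (by positivity)
      _ = C₅ / nm h := by
          rw [hC₅, mul_pow, ← hP]
          field_simp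
      _ ≤ _ := by
          refine div_le_div_of_nonneg_right ?_ hn0.le
          have : 0 ≤ 2 / κ + 2 * κ := by positivity
          linarith
  · intro hCD
    by_cases hcop : IsCoprime h M
    · have hk : 0 ≤ 2 / κ + 2 * κ := by positivity
      have hMD : nm M * nm h ≤ D := by
        have h5 : nm M * nm h ^ 2 ≤
            (1 + 2 / κ + 2 * κ + C₄ + C₅ + C₆ + nm M) * nm h ^ 2 :=
          mul_le_mul_of_nonneg_right (by linarith) (by positivity)
        have h6 : nm M * nm h ≤ nm M * nm h ^ 2 :=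
          mul_le_mul_of_nonneg_left (le_self_pow₀ hn1 two_ne_zero) (by linarith)
        linarith
      set S₀ : Finset (𝓞 K) := (fin_ball hLat (B * D)).toFinset with hS₀
      have hS₀' : ∀ x : 𝓞 K, G (D⁻¹ • E (x : K)) ≠ 0 → x ∈ S₀ := by
        intro x hx
        rw [hS₀, Set.Finite.mem_toFinset]
        exact (lip_scale hD0 hLG).2 _ hx
      have h5 := hmean M h hM hh hcop (fun z => G (D⁻¹ • z)) (L * D⁻¹) (B * D) (by positivity)
        (by positivity) (lip_scale hD0 hLG) S₀ hS₀'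
      have hsub : S ⊆ S₀ := fun x hx => hS₀' x ((adm_G hρ _).2 ((hS x).1 hx).2)
      have hout : ∀ x : 𝓞 K, x ∉ S → cop x M → G (D⁻¹ • E (x : K)) = 0 := by
        intro x hx h4
        by_contra h5
        exact hx ((hS x).2 ⟨h4, (adm_G hρ _).1 h5⟩)
      have h6 : ∑ x ∈ S₀, G (D⁻¹ • E (x : K)) * ind (cop x M) = Z * P := by
        rw [hZeq, div_mul_cancel₀ _ hP0.ne', ← Finset.sum_subset hsub]
        · refine Finset.sum_congr rfl fun x hx => ?_
          rw [ind_true ((hS x).1 hx).1, mul_one]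
        · intro x _ hx
          by_cases h4 : cop x M
          · rw [hout x hx h4, zero_mul]
          · rw [ind_false h4, mul_zero]
      have h7 : ∑ x ∈ S₀, G (D⁻¹ • E (x : K)) * ind (cop x M ∧ x ∈ h) =
          (∑ x ∈ S, wl ρ D x * ind (x ∈ h)) * P := by
        rw [Finset.sum_mul, ← Finset.sum_subset hsub]
        · refine Finset.sum_congr rfl fun x hx => ?_
          have h8 : ind (cop x M ∧ x ∈ h) = ind (x ∈ h) :=
            ind_congr ⟨fun h => h.2, fun h => ⟨((hS x).1 hx).1, h⟩⟩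
          rw [h8, hwl]
          field_simp
        · intro x _ hx
          by_cases h4 : cop x M
          · rw [hout x hx h4, zero_mul]
          · rw [ind_false fun h => h4 h.1, mul_zero]
      rw [h6, h7] at h5
      have h8 : (B * D + nm M * nm h + 1) ^ d ≤ (B + 2) ^ d * P := by
        rw [hP, ← mul_pow]
        have e : (B + 2) * D = B * D + D + D := by ring
        refine pow_le_pow_left₀ (by positivity) ?_ _
        rw [e]
        linarith
      have h9 : C₃ * (L * D⁻¹) * (nm M * nm h) * (B * D + nm M * nm h + 1) ^ d ≤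
          C₃ * L * nm M * (B + 2) ^ d * (nm h / D) * P := by
        calc C₃ * (L * D⁻¹) * (nm M * nm h) * (B * D + nm M * nm h + 1) ^ d
            ≤ C₃ * (L * D⁻¹) * (nm M * nm h) * ((B + 2) ^ d * P) :=
              mul_le_mul_of_nonneg_left h8 (by positivity)
          _ = _ := by rw [div_eq_mul_inv]; ring
      have h10 := (le_abs_self _).trans (h5.trans h9)
      have h11 : (∑ x ∈ S, wl ρ D x * ind (x ∈ h)) ≤
          Z / nm h + C₃ * L * nm M * (B + 2) ^ d * (nm h / D) := by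
        have h12 : (∑ x ∈ S, wl ρ D x * ind (x ∈ h)) * P ≤
            (Z / nm h + C₃ * L * nm M * (B + 2) ^ d * (nm h / D)) * P := by
          have e : (Z / nm h + C₃ * L * nm M * (B + 2) ^ d * (nm h / D)) * P =
            Z * P / nm h + C₃ * L * nm M * (B + 2) ^ d * (nm h / D) * P := by ring
          rw [e]
          linarith
        exact le_of_mul_le_mul_right h12 hP0
      rw [sum_pr, ← hZ, div_le_iff₀ hZ0]
      refine h11.trans ?_
      have h13 : C₃ * L * nm M * (B + 2) ^ d * (nm h / D) ≤ κ / 2 * (1 / nm h) := by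
        have h14 : C₆ * nm h ^ 2 ≤ D := by
          refine le_trans (mul_le_mul_of_nonneg_right ?_ (by positivity)) hCD
          linarith
        have h15 : C₃ * L * nm M * (B + 2) ^ d = κ / 2 * C₆ := by
          rw [hC₆]
          field_simp
        rw [h15, mul_assoc]
        refine mul_le_mul_of_nonneg_left ?_ (by positivity)
        rw [mul_div_assoc', div_le_div_iff₀ hD0 hn0, one_mul]
        refine le_of_eq_of_le ?_ h14
        ring
      have h16 : κ / 2 * (1 / nm h) ≤ Z * (1 / nm h) :=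
        mul_le_mul_of_nonneg_right hZ1 (by positivity)
      calc Z / nm h + C₃ * L * nm M * (B + 2) ^ d * (nm h / D)
          ≤ Z / nm h + Z * (1 / nm h) := by linarith
        _ = 2 / nm h * Z := by ring
    · have h5 : ∑ x ∈ S, pr (wl ρ D) S x * ind (x ∈ h) = 0 := by
        refine Finset.sum_eq_zero fun x hx => ?_
        rw [ind_false, mul_zero]
        intro hxh
        apply hcop
        have h6 : cop x M := ((hS x).1 hx).1
        unfold cop at h6
        rw [Ideal.isCoprime_iff_sup_eq] at h6 ⊢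
        refine top_le_iff.1 (h6.symm.le.trans (sup_le_sup_right ?_ _))
        rwa [Ideal.span_singleton_le_iff_mem]
      rw [h5]
      positivity

end Pool.Agent.T9h8.NF
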