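import Pool.Agent.T9h8.NF.CopSum

/-!
# Total weight of a slot (helper8)
-/

set_option autoImplicit false

namespace Pool.Agent.T9h8.NF

open Finset NumberField Pool.Agent.T9h42.GF Pool.Agent.T9h57.QD Pool.Agent.T9h11.NF

variable {K : Type} [Field K] [NumberField K]

lemma nrm_smul (c : ℝ) (z : Sp K) : nrm (c • z) = |c| ^ Module.finrank ℚ K * nrm z := by
  unfold nrm
  have h : ∀ v : InfinitePlace K, ‖(c • z) v‖ ^ v.mult = |c| ^ v.mult * ‖z v‖ ^ v.mult := by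
    intro v
    rw [Pi.smul_apply, norm_smul, Real.norm_eq_abs, mul_pow]
  simp only [h]
  rw [Finset.prod_mul_distrib, Finset.prod_pow_eq_pow_sum, InfinitePlace.sum_mult_eq]

lemma nrm_pos {z : Sp K} (hz : ∀ v, z v ≠ 0) : 0 < nrm z := by
  unfold nrm
  exact Finset.prod_pos fun v _ => pow_pos (norm_pos_iff.2 (hz v)) _

lemma nrm_nonneg (z : Sp K) : 0 ≤ nrm z := by
  unfold nrm
  exact Finset.prod_nonneg fun v _ => pow_nonneg (norm_nonneg _) _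

lemma lip_scale {G : Sp K → ℝ} {L B D : ℝ} (hD : 0 < D) (hG : LipF L B G) :
    LipF (L * D⁻¹) (B * D) (fun z => G (D⁻¹ • z)) := by
  constructor
  · intro z z'
    refine (hG.1 _ _).trans ?_
    rw [← smul_sub, norm_smul, Real.norm_eq_abs, abs_of_pos (inv_pos.2 hD)]
    exact le_of_eq (by ring)
  · intro z hz
    have h := hG.2 _ hz
    rw [norm_smul, Real.norm_eq_abs, abs_of_pos (inv_pos.2 hD)] at h
    have h2 : ‖z‖ = D * (D⁻¹ * ‖z‖) := by field_simp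
    rw [h2, mul_comm B D]
    exact mul_le_mul_of_nonneg_left h hD.le

/-- the integral of a scaled function -/
lemma int_scale (I : (Sp K → ℝ) → ℝ)
    (hR2 : ∀ (F : Sp K → ℝ) (L B : ℝ), LipF L B F → ∀ w : Sp K, RF w →
      I (fun z => F (w * z)) = I F / nrm w) {G : Sp K → ℝ} {L B D : ℝ} (hD : 0 < D)
    (hG : LipF L B G) : I (fun z => G (D⁻¹ • z)) = D ^ Module.finrank ℚ K * I G := by
  have h := hR2 G L B hG (D⁻¹ • (1 : Sp K)) ⟨fun v => by
    simp [hD.ne'], fun v _ => by simp⟩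
  have h1 : (fun z : Sp K => G ((D⁻¹ • (1 : Sp K)) * z)) = fun z => G (D⁻¹ • z) := by
    funext z
    congr 1
    rw [smul_mul_assoc, one_mul]
  rw [h1, nrm_smul] at h
  rw [h]
  have h2 : nrm (1 : Sp K) = 1 := by
    unfold nrm
    simp
  rw [h2, mul_one, abs_of_pos (inv_pos.2 hD), inv_pow, div_inv_eq_mul, mul_comm]

/-- the sum over a slot -/
theorem slot_sum (hLat : LatK K) (hA : AbelK K) (hMn : MeanK K) (I : (Sp K → ℝ) → ℝ) (CR : ℝ)
    (hCR : 1 ≤ CR)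
    (hR : ∀ (F : Sp K → ℝ) (L B : ℝ), 0 ≤ L → 0 ≤ B → LipF L B F → ∀ S : Finset (𝓞 K),
      (∀ x : 𝓞 K, F (E (x : K)) ≠ 0 → x ∈ S) →
      |∑ x ∈ S, F (E (x : K)) - I F| ≤ CR * L * (B + 1) ^ Module.finrank ℚ K)
    (hR2 : ∀ (F : Sp K → ℝ) (L B : ℝ), LipF L B F → ∀ w : Sp K, RF w →
      I (fun z => F (w * z)) = I F / nrm w)
    (M : Ideal (𝓞 K)) (hM : M ≠ ⊥) (ρ G : Sp K → ℝ) (hρ : ∀ z, G z ≠ 0 ↔ ρ z ≠ 0) (L B : ℝ)
    (hL : 0 ≤ L) (hB : 0 ≤ B) (hG : LipF L B G) :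
    ∃ γ C : ℝ, 0 < γ ∧ γ ≤ 1 ∧ 1 ≤ C ∧ ∀ D : ℝ, 1 ≤ D → ∀ S : Finset (𝓞 K), IsSlot ρ M D S →
      |∑ x ∈ S, G (D⁻¹ • E (x : K)) - γ * (D ^ Module.finrank ℚ K * I G)| ≤
        C * (D ^ Module.finrank ℚ K / D) := by
  obtain ⟨γ, C, hγ0, hγ1, hC1, hC⟩ := cop_sum hLat hA hMn I CR hCR hR M hM
  refine ⟨γ, C * L * (B + 1) ^ Module.finrank ℚ K + 1, hγ0, hγ1, ?_, ?_⟩
  · have : 0 ≤ C * L * (B + 1) ^ Module.finrank ℚ K := by positivity
    linarith
  intro D hD S hS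
  have hD0 : 0 < D := by linarith
  set S₀ : Finset (𝓞 K) := (fin_ball hLat (B * D)).toFinset with hS₀
  have hS₀' : ∀ x : 𝓞 K, G (D⁻¹ • E (x : K)) ≠ 0 → x ∈ S₀ := by
    intro x hx
    rw [hS₀, Set.Finite.mem_toFinset]
    exact (lip_scale hD0 hG).2 _ hx
  have h1 := hC (fun z => G (D⁻¹ • z)) (L * D⁻¹) (B * D) (by positivity) (by positivity)
    (lip_scale hD0 hG) S₀ hS₀'
  rw [int_scale I hR2 hD0 hG] at h1
  have h2 : ∑ x ∈ S₀, G (D⁻¹ • E (x : K)) * ind (cop x M) = ∑ x ∈ S, G (D⁻¹ • E (x : K)) := by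
    have h3 : S ⊆ S₀ := fun x hx => hS₀' x ((hρ _).2 ((hS x).1 hx).2)
    rw [← Finset.sum_subset h3]
    · refine Finset.sum_congr rfl fun x hx => ?_
      rw [ind_true ((hS x).1 hx).1, mul_one]
    · intro x _ hx
      by_cases h4 : cop x M
      · have h5 : G (D⁻¹ • E (x : K)) = 0 := by
          by_contra h5
          exact hx ((hS x).2 ⟨h4, (hρ _).1 h5⟩)
        rw [h5, zero_mul]
      · rw [ind_false h4, mul_zero]
  rw [h2] at h1
  refine h1.trans ?_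
  have h3 : (B * D + 1) ^ Module.finrank ℚ K ≤
      (B + 1) ^ Module.finrank ℚ K * D ^ Module.finrank ℚ K := by
    rw [← mul_pow]
    exact pow_le_pow_left₀ (by positivity) (by nlinarith) _
  calc C * (L * D⁻¹) * (B * D + 1) ^ Module.finrank ℚ K
      ≤ C * (L * D⁻¹) * ((B + 1) ^ Module.finrank ℚ K * D ^ Module.finrank ℚ K) :=
        mul_le_mul_of_nonneg_left h3 (by positivity)
    _ = C * L * (B + 1) ^ Module.finrank ℚ K * (D ^ Module.finrank ℚ K / D) := by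
        rw [div_eq_mul_inv]
        ring
    _ ≤ _ := mul_le_mul_of_nonneg_right (by linarith) (by positivity)

/-- **`CSumK`** -/
theorem cSumK (K : Type) [Field K] [NumberField K] (hLat : LatK K) (hA : AbelK K)
    (hMn : MeanK K) (hR : RiemK K) (hL : LipX K) : CSumK K := by
  intro ρ M hρ hM
  obtain ⟨I, CR, hCR, hR1, hR2, hR3, hR4, hR5⟩ := hR
  obtain ⟨L, B, hL0, hB0, -, -, -, hLρ, -⟩ := hL ρ ρ hρ hρ
  obtain ⟨γ, C, hγ0, hγ1, hC1, hC⟩ := slot_sum hLat hA hMn I CR hCR hR1 hR2 M hM ρ ρ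
    (fun z => Iff.rfl) L B hL0 hB0 hLρ
  have hI : 0 < I ρ := hR5 ρ L B hLρ (fun z => (hρ.1 z).1) hρ.2.2.2
  set κ : ℝ := γ * I ρ with hκ
  have hκ0 : 0 < κ := mul_pos hγ0 hI
  refine ⟨1 + 2 / κ + 2 * κ, 1 + 2 * C / κ, ?_, ?_, ?_⟩
  · have : 0 ≤ 2 / κ + 2 * κ := by positivity
    linarith
  · have : 0 ≤ 2 * C / κ := by positivity
    linarith
  intro D hD S hS
  have hC0 : 0 < C := by linarith
  have h2C : 2 * C / κ ≤ D := by
    linarith
  have hD1 : 1 ≤ D := by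
    have : 0 ≤ 2 * C / κ := by positivity
    linarith
  have hD0 : 0 < D := by linarith
  set P : ℝ := D ^ Module.finrank ℚ K with hP
  have hP0 : 0 < P := by positivity
  have h1 := hC D hD1 S hS
  have h2 : C * (P / D) ≤ κ / 2 * P := by
    rw [div_le_iff₀ hκ0] at h2C
    rw [mul_div_assoc', div_le_iff₀ hD0]
    nlinarith
  have h3 : γ * (P * I ρ) = κ * P := by
    rw [hκ]
    ring
  rw [h3, abs_le] at h1
  have h4 : ∑ x ∈ S, wu ρ D x = ∑ x ∈ S, ρ (D⁻¹ • E (x : K)) := rfl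
  rw [h4]
  have h5 : κ / 2 * P ≤ ∑ x ∈ S, ρ (D⁻¹ • E (x : K)) := by nlinarith
  refine ⟨?_, ?_, ?_⟩
  · by_contra h
    rw [Finset.not_nonempty_iff_eq_empty] at h
    rw [h, Finset.sum_empty] at h5
    have : 0 < κ / 2 * P := by positivity
    linarith
  · refine le_trans ?_ h5
    have h6 : (0 : ℝ) < 1 + 2 / κ + 2 * κ := by positivity
    rw [div_le_iff₀ h6]
    have h7 : κ / 2 * P * (2 / κ) = P := by field_simp
    have h8 : 0 ≤ κ / 2 * P := by positivity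
    nlinarith
  · have h6 : ∑ x ∈ S, ρ (D⁻¹ • E (x : K)) ≤ κ / 2 * P + κ * P := by linarith [h1.2]
    refine h6.trans ?_
    have : 0 ≤ 2 / κ := by positivity
    nlinarith

end Pool.Agent.T9h8.NF
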