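import Pool.Agent.T9h11.NF.Spec2

/-!
# Sums of Lipschitz functions over the integers prime to an ideal (helper8)
-/

set_option autoImplicit false

namespace Pool.Agent.T9h8.NF

open Finset NumberField Pool.Agent.T9h42.GF Pool.Agent.T9h57.QD Pool.Agent.T9h11.NF

variable {K : Type} [Field K] [NumberField K]

lemma ind_nonneg (p : Prop) : 0 ≤ ind p := by
  unfold ind
  split_ifs <;> norm_num

lemma ind_le_one (p : Prop) : ind p ≤ 1 := by
  unfold ind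
  split_ifs <;> norm_num

lemma ind_true {p : Prop} (h : p) : ind p = 1 := by
  unfold ind
  rw [if_pos h]

lemma ind_false {p : Prop} (h : ¬ p) : ind p = 0 := by
  unfold ind
  rw [if_neg h]

lemma ind_congr {p q : Prop} (h : p ↔ q) : ind p = ind q := by
  unfold ind
  by_cases hp : p
  · rw [if_pos hp, if_pos (h.1 hp)]
  · rw [if_neg hp, if_neg fun hq => hp (h.2 hq)]

/-- balls contain finitely many integers -/
lemma fin_ball (hLat : LatK K) (B : ℝ) : {x : 𝓞 K | ‖E (x : K)‖ ≤ B}.Finite := by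
  obtain ⟨C, hC1, hC, -⟩ := hLat
  by_contra h
  have hB : 0 ≤ B := by
    by_contra hB
    apply h
    convert Set.finite_empty
    ext x
    simp only [Set.mem_ofPred_eq, Set.mem_empty_iff_false, iff_false, not_le]
    exact lt_of_lt_of_le (not_le.1 hB) (norm_nonneg _)
  obtain ⟨t, ht1, ht2⟩ := Set.Infinite.exists_subset_card_eq h
    (⌈C * (B + 1) ^ Module.finrank ℚ K⌉₊ + 1)
  have h1 := hC B t hB fun x hx => ht1 hx
  rw [ht2] at h1
  push_cast at h1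
  linarith [Nat.le_ceil (C * (B + 1) ^ Module.finrank ℚ K)]

lemma card_ball (hLat : LatK K) : ∃ C : ℝ, 1 ≤ C ∧ ∀ B : ℝ, 0 ≤ B →
    ∃ S : Finset (𝓞 K), (∀ x : 𝓞 K, x ∈ S ↔ ‖E (x : K)‖ ≤ B) ∧
      (S.card : ℝ) ≤ C * (B + 1) ^ Module.finrank ℚ K := by
  have hf := fun B => fin_ball (K := K) hLat B
  obtain ⟨C, hC1, hC, -⟩ := hLat
  refine ⟨C, hC1, fun B hB => ⟨(hf B).toFinset, fun x => by simp, ?_⟩⟩
  exact hC B _ hB fun x hx => by simpa using hx

/-- periodic functions of mean `0` against Lipschitz functions -/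
lemma abel_real (hLat : LatK K) (hA : AbelK K) : ∃ C : ℝ, 1 ≤ C ∧
    ∀ (T : Ideal (𝓞 K)) (s : ℝ), T ≠ ⊥ → 0 < s → nm T ≤ s ^ Module.finrank ℚ K →
    ∀ [Fintype (𝓞 K ⧸ T)] (g : 𝓞 K ⧸ T → ℝ), (∀ q, |g q| ≤ 1) → ∑ q, g q = 0 →
    ∀ (F : Sp K → ℝ) (L B : ℝ), 0 ≤ L → 0 ≤ B → LipF L B F → ∀ S : Finset (𝓞 K),
      (∀ x : 𝓞 K, F (E (x : K)) ≠ 0 → x ∈ S) →
      |∑ x ∈ S, g (Ideal.Quotient.mk T x) * F (E (x : K))| ≤
        C * L * s * (B + s + 1) ^ Module.finrank ℚ K := by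
  obtain ⟨C₁, hC₁, hcard⟩ := card_ball hLat
  obtain ⟨C₂, hC₂, hab⟩ := hA
  refine ⟨C₂ * (C₁ * C₂ ^ Module.finrank ℚ K), ?_, ?_⟩
  · have := one_le_pow₀ hC₂ (n := Module.finrank ℚ K)
    nlinarith [mul_le_mul hC₁ this zero_le_one (by linarith)]
  intro T s hT hs hTs _ g hg hg0 F L B hL hB hF S hS
  obtain ⟨S', hS'1, hS'2⟩ := hcard (B + C₂ * s) (by positivity)
  have h1 := hab T s hT hs hTs (fun q => (g q : ℂ)) (by exact_mod_cast hg0) F L B hL hB hF S S' hS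
    fun x hx => (hS'1 x).2 hx
  have h2 : ‖∑ x ∈ S, ((g (Ideal.Quotient.mk T x) : ℝ) : ℂ) * (F (E (x : K)) : ℂ)‖ =
      |∑ x ∈ S, g (Ideal.Quotient.mk T x) * F (E (x : K))| := by
    rw [← Real.norm_eq_abs, ← Complex.norm_real]
    push_cast
    rfl
  rw [h2] at h1
  refine h1.trans ?_
  have h3 : ∑ x ∈ S', ‖((g (Ideal.Quotient.mk T x) : ℝ) : ℂ)‖ ≤
      C₁ * C₂ ^ Module.finrank ℚ K * (B + s + 1) ^ Module.finrank ℚ K := by
    calc ∑ x ∈ S', ‖((g (Ideal.Quotient.mk T x) : ℝ) : ℂ)‖ ≤ ∑ _x ∈ S', (1 : ℝ) := by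
          refine Finset.sum_le_sum fun x _ => ?_
          rw [Complex.norm_real, Real.norm_eq_abs]
          exact hg _
      _ = S'.card := by simp
      _ ≤ C₁ * (B + C₂ * s + 1) ^ Module.finrank ℚ K := hS'2
      _ ≤ C₁ * (C₂ * (B + s + 1)) ^ Module.finrank ℚ K := by
          refine mul_le_mul_of_nonneg_left (pow_le_pow_left₀ (by positivity) ?_ _) (by linarith)
          nlinarith
      _ = _ := by rw [mul_pow]; ring
  calc C₂ * L * s * ∑ x ∈ S', ‖((g (Ideal.Quotient.mk T x) : ℝ) : ℂ)‖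
      ≤ C₂ * L * s * (C₁ * C₂ ^ Module.finrank ℚ K * (B + s + 1) ^ Module.finrank ℚ K) :=
        mul_le_mul_of_nonneg_left h3 (by positivity)
    _ = _ := by ring

lemma finrank_ne : Module.finrank ℚ K ≠ 0 := (Module.finrank_pos (R := ℚ) (M := K)).ne'

lemma one_le_nm {T : Ideal (𝓞 K)} (hT : T ≠ ⊥) : 1 ≤ nm T := by
  unfold nm
  have : Ideal.absNorm T ≠ 0 := fun h => hT (Ideal.absNorm_eq_zero_iff.1 h)
  exact_mod_cast Nat.one_le_iff_ne_zero.2 this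

lemma le_pow_nm {T : Ideal (𝓞 K)} (hT : T ≠ ⊥) : nm T ≤ nm T ^ Module.finrank ℚ K :=
  le_self_pow₀ (one_le_nm hT) finrank_ne

lemma pd_one (M : Ideal (𝓞 K)) : PD 1 M := by
  intro p hp _ h
  exact absurd (Ideal.isUnit_iff.1 (isUnit_of_dvd_one h)) hp.ne_top

/-- **sums over the integers prime to `M`** -/
theorem cop_sum (hLat : LatK K) (hA : AbelK K) (hMn : MeanK K) (I : (Sp K → ℝ) → ℝ) (CR : ℝ)
    (hCR : 1 ≤ CR)
    (hR : ∀ (F : Sp K → ℝ) (L B : ℝ), 0 ≤ L → 0 ≤ B → LipF L B F → ∀ S : Finset (𝓞 K),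
      (∀ x : 𝓞 K, F (E (x : K)) ≠ 0 → x ∈ S) →
      |∑ x ∈ S, F (E (x : K)) - I F| ≤ CR * L * (B + 1) ^ Module.finrank ℚ K)
    (M : Ideal (𝓞 K)) (hM : M ≠ ⊥) : ∃ γ C : ℝ, 0 < γ ∧ γ ≤ 1 ∧ 1 ≤ C ∧
      ∀ (F : Sp K → ℝ) (L B : ℝ), 0 ≤ L → 0 ≤ B → LipF L B F → ∀ S : Finset (𝓞 K),
        (∀ x : 𝓞 K, F (E (x : K)) ≠ 0 → x ∈ S) →
        |∑ x ∈ S, F (E (x : K)) * ind (cop x M) - γ * I F| ≤
          C * L * (B + 1) ^ Module.finrank ℚ K := by
  classical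
  obtain ⟨C₁, hC₁, hab⟩ := abel_real hLat hA
  set T : Ideal (𝓞 K) := M * 1 * 1 with hT
  have hT0 : T ≠ ⊥ := by
    rw [hT, mul_one, mul_one]
    exact hM
  have : Finite (𝓞 K ⧸ T) := Ideal.finiteQuotientOfFreeOfNeBot T hT0
  let _ : Fintype (𝓞 K ⧸ T) := Fintype.ofFinite _
  set out : 𝓞 K ⧸ T → 𝓞 K := fun q => (Ideal.Quotient.mk_surjective q).choose with hout
  have hmk : ∀ q, Ideal.Quotient.mk T (out q) = q := fun q =>
    (Ideal.Quotient.mk_surjective q).choose_spec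
  have h1bot : (1 : Ideal (𝓞 K)) ≠ ⊥ := by
    rw [Ideal.one_eq_top]
    exact top_ne_bot
  obtain ⟨-, -, -, hpos, hper⟩ := hMn M 1 1 hM h1bot h1bot (pd_one M) isCoprime_one_left out hmk
  have hcard : (0 : ℝ) < Fintype.card (𝓞 K ⧸ T) := by
    have : 0 < Fintype.card (𝓞 K ⧸ T) := Fintype.card_pos
    exact_mod_cast this
  set γ : ℝ := (∑ q, ind (cop (out q) M)) / Fintype.card (𝓞 K ⧸ T) with hγ
  have hγ0 : 0 < γ := div_pos hpos hcard
  have hγ1 : γ ≤ 1 := by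
    rw [hγ, div_le_one hcard]
    calc ∑ q, ind (cop (out q) M) ≤ ∑ _q : 𝓞 K ⧸ T, (1 : ℝ) :=
          Finset.sum_le_sum fun q _ => ind_le_one _
      _ = _ := by simp
  set s : ℝ := nm T with hs
  have hs1 : 1 ≤ s := one_le_nm hT0
  refine ⟨γ, C₁ * s * (s + 1) ^ Module.finrank ℚ K + CR, hγ0, hγ1, ?_, ?_⟩
  · have : 0 ≤ C₁ * s * (s + 1) ^ Module.finrank ℚ K := by positivity
    linarith
  intro F L B hL hB hF S hS
  have h1 := hab T s hT0 (by linarith) (le_pow_nm hT0) (fun q => ind (cop (out q) M) - γ)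
    (fun q => by
      rw [abs_le]
      have a1 := ind_nonneg (cop (out q) M)
      have a2 := ind_le_one (cop (out q) M)
      constructor <;> linarith)
    (by
      rw [Finset.sum_sub_distrib, Finset.sum_const, Finset.card_univ, nsmul_eq_mul, hγ]
      field_simp
      ring) F L B hL hB hF S hS
  have h2 : ∀ x : 𝓞 K, ind (cop (out (Ideal.Quotient.mk T x)) M) = ind (cop x M) := by
    intro x
    refine ind_congr (hper _ _ ?_)
    rw [← Ideal.Quotient.eq, hmk]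
  simp only [h2] at h1
  have h3 := hR F L B hL hB hF S hS
  have h4 : ∑ x ∈ S, F (E (x : K)) * ind (cop x M) - γ * I F =
      ∑ x ∈ S, (ind (cop x M) - γ) * F (E (x : K)) + γ * (∑ x ∈ S, F (E (x : K)) - I F) := by
    rw [mul_sub, Finset.mul_sum, ← add_sub_assoc, ← Finset.sum_add_distrib]
    congr 1
    refine Finset.sum_congr rfl fun x _ => ?_
    ring
  rw [h4]
  refine (abs_add_le _ _).trans ?_
  rw [abs_mul, abs_of_pos hγ0]
  have h5 : (B + s + 1) ^ Module.finrank ℚ K ≤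
      (s + 1) ^ Module.finrank ℚ K * (B + 1) ^ Module.finrank ℚ K := by
    rw [← mul_pow]
    exact pow_le_pow_left₀ (by positivity) (by nlinarith) _
  have h6 : C₁ * L * s * (B + s + 1) ^ Module.finrank ℚ K ≤
      C₁ * s * (s + 1) ^ Module.finrank ℚ K * L * (B + 1) ^ Module.finrank ℚ K := by
    calc C₁ * L * s * (B + s + 1) ^ Module.finrank ℚ K
        ≤ C₁ * L * s * ((s + 1) ^ Module.finrank ℚ K * (B + 1) ^ Module.finrank ℚ K) :=
          mul_le_mul_of_nonneg_left h5 (by positivity)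
      _ = _ := by ring
  have h7 : γ * |∑ x ∈ S, F (E (x : K)) - I F| ≤ CR * L * (B + 1) ^ Module.finrank ℚ K := by
    calc γ * |∑ x ∈ S, F (E (x : K)) - I F| ≤ 1 * |∑ x ∈ S, F (E (x : K)) - I F| :=
          mul_le_mul_of_nonneg_right hγ1 (abs_nonneg _)
      _ ≤ _ := by rw [one_mul]; exact h3
  calc _ ≤ C₁ * s * (s + 1) ^ Module.finrank ℚ K * L * (B + 1) ^ Module.finrank ℚ K +
        CR * L * (B + 1) ^ Module.finrank ℚ K := add_le_add (h1.trans h6) h7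
    _ = _ := by ring

end Pool.Agent.T9h8.NF
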